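import Pool.Agent.H40.Fpt

set_option autoImplicit false

namespace Pool.Agent.Results.MP_970e84_lc.NotGroupInvariant

open Pool.Agent.H40.Fpt

/-- Two Fraïssé structures with topologically isomorphic automorphism groups, only one of which
has FPT. -/
theorem result : ∃ (L L' : FirstOrder.Language.{0, 0}) (M M' : Type) (_ : L.Structure M)
    (_ : L'.Structure M'), IsFraisseStructure L M ∧ IsFraisseStructure L' M' ∧
    (∃ e : Aut L M ≃* Aut L' M', @Continuous _ _ (autTop L M) (autTop L' M') e ∧
      @Continuous _ _ (autTop L' M') (autTop L M) e.symm) ∧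
    FPT L M ∧ ¬ FPT L' M' := by
  refine ⟨_, _, ℤ, ℤ ⊕ Bool, str s1, str s2, fraisse s1, fraisse s2,
    ⟨(autEquiv s1 inj1).symm.trans (autEquiv s2 inj2), ?_, ?_⟩, fpt, not_fpt⟩
  · rw [top_bot s1 inj1]
    exact continuous_bot
  · rw [top_bot s2 inj2]
    exact continuous_bot

end Pool.Agent.Results.MP_970e84_lc.NotGroupInvariant
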